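import Pool.Agent.X103.ArF

/-!
# Schiffer's conjecture: rigidity of the area of the domains with solutions

If two plane sets carry nontrivial solutions of the overdetermined problem (S) for the same `lam`,
then the parts by which each of them exceeds the other have almost the same area. Consequently
nested ones differ by a definite amount, and `lam |Ω|` is constant along every path of solutions
which is Hölder continuous in measure with an exponent greater than `1/2`.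
-/

set_option autoImplicit false

open MeasureTheory Set Metric

namespace Pool.Agent.Results.MP_83fd13_an.AreaRigidity

/-- The overdetermined problem (S) in the plane `ℂ`: `-Δu = lam u` in `Ω`, `∂u/∂n = 0` on `∂Ω`,
`u = c` on `∂Ω` has a nontrivial weak solution `u` for some real constant `c`; `G` is the weak
gradient of `u`, and both boundary conditions are expressed by testing with functions that need not
vanish on `∂Ω`. -/
def Solvable (Ω : Set ℂ) (lam : ℝ) : Prop :=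
  ∃ (c : ℝ) (u : ℂ → ℝ) (G : ℂ → ℂ),
    MemLp u 2 (volume.restrict Ω) ∧ MemLp G 2 (volume.restrict Ω) ∧
    (∀ φ : ℂ → ℝ, ContDiff ℝ 1 φ → HasCompactSupport φ → ∀ v : ℂ,
      ∫ x in Ω, (u x - c) * (fderiv ℝ φ x v) = - ∫ x in Ω, @inner ℝ ℂ _ (G x) v * φ x) ∧
    (∀ φ : ℂ → ℝ, ContDiff ℝ 1 φ → HasCompactSupport φ →
      ∫ x in Ω, fderiv ℝ φ x (G x) = lam * ∫ x in Ω, u x * φ x) ∧
    ¬ (u =ᵐ[volume.restrict Ω] 0)

/-- The area of a set. -/
noncomputable def area (E : Set ℂ) : ℝ := (volume E).toReal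

/-- The area of the symmetric difference. -/
noncomputable def gap (E E' : Set ℂ) : ℝ := area (symmDiff E E')

/-- The set `ρ Ω`. -/
def dilated (ρ : ℝ) (Ω : Set ℂ) : Set ℂ := {x | ρ⁻¹ • x ∈ Ω}

theorem slv_iff {Ω : Set ℂ} {lam : ℝ} : Solvable Ω lam ↔ Pool.Agent.X103.Nest.Slv Ω lam := by
  constructor
  · rintro ⟨c, u, G, hu, hG, h1, h2, hu0⟩
    exact ⟨c, u, G, ⟨hu, hG, h1, h2⟩, hu0⟩
  · rintro ⟨c, u, G, ⟨hu, hG, h1, h2⟩, hu0⟩
    exact ⟨c, u, G, hu, hG, h1, h2, hu0⟩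

theorem dil_eq (ρ : ℝ) (Ω : Set ℂ) : Pool.Agent.X103.Cm.sim ρ⁻¹ 0 Ω = dilated ρ Ω := by
  unfold Pool.Agent.X103.Cm.sim dilated
  ext x
  simp

/-- (1) Two measurable sets `E`, `E'` in a fixed disc which carry nontrivial solutions of (S) for the
same `lam ≤ Λ` satisfy `||E| - |E'|| ≤ C D² (1 + |log D|)`, where `D = |E Δ E'|`. So the areas of
`E \ E'` and of `E' \ E` are `D/2` up to `O(D² (1 + |log D|))`.

(2) If moreover `E ⊆ E'`, then `E' \ E` has area zero or at least `c > 0`. The boundaries may touch.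

(3) If `E t`, `t` in an interval, carry nontrivial solutions of (S) for the same `lam` and
`|E s Δ E t| ≤ L |s - t| ^ a` for some `a > 1/2`, then the area of `E t` does not depend on `t`.

(4) If the open sets `Ω t` carry nontrivial solutions for `lam t`, where `lam` is continuous,
`|Ω s Δ Ω t| ≤ L |s - t| ^ a`, `a > 1/2`, and `|Ω t Δ ρ Ω t| ≤ P |ρ - 1|` for `1/2 ≤ ρ ≤ 2` (a mild
regularity of the boundary), then `lam t * |Ω t|` does not depend on `t`.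

(5) If the sets `Ω t` are star-shaped about `0`, then the last condition is not needed. -/
theorem result :
    (∀ R Λ : ℝ, 0 ≤ R → ∃ C : ℝ, 0 < C ∧ ∀ lam : ℝ, 0 < lam → lam ≤ Λ → ∀ E E' : Set ℂ,
      MeasurableSet E → MeasurableSet E' → E ⊆ closedBall 0 R → E' ⊆ closedBall 0 R →
      Solvable E lam → Solvable E' lam →
      |area E - area E'| ≤ C * gap E E' ^ 2 * (1 + |Real.log (gap E E')|)) ∧
    (∀ R Λ : ℝ, 0 ≤ R → ∃ c : ℝ, 0 < c ∧ ∀ lam : ℝ, 0 < lam → lam ≤ Λ → ∀ E E' : Set ℂ,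
      MeasurableSet E → MeasurableSet E' → E ⊆ E' → E' ⊆ closedBall 0 R →
      Solvable E lam → Solvable E' lam → area (E' \ E) = 0 ∨ c ≤ area (E' \ E)) ∧
    (∀ (J : Set ℝ) (E : ℝ → Set ℂ) (lam R L a : ℝ), J.OrdConnected → 0 < lam → 0 ≤ R → 0 ≤ L →
      1 / 2 < a → (∀ t ∈ J, MeasurableSet (E t) ∧ E t ⊆ closedBall 0 R ∧ Solvable (E t) lam) →
      (∀ s ∈ J, ∀ t ∈ J, gap (E s) (E t) ≤ L * |s - t| ^ a) →
      ∀ s ∈ J, ∀ t ∈ J, area (E s) = area (E t)) ∧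
    (∀ (J : Set ℝ) (Ω : ℝ → Set ℂ) (lam : ℝ → ℝ) (R L P a : ℝ), J.OrdConnected → 0 ≤ R → 0 ≤ L →
      0 ≤ P → 1 / 2 < a → ContinuousOn lam J →
      (∀ t ∈ J, IsOpen (Ω t) ∧ Ω t ⊆ closedBall 0 R ∧ 0 < lam t ∧ Solvable (Ω t) (lam t)) →
      (∀ t ∈ J, ∀ ρ ∈ Icc (1 / 2 : ℝ) 2, gap (Ω t) (dilated ρ (Ω t)) ≤ P * |ρ - 1|) →
      (∀ s ∈ J, ∀ t ∈ J, gap (Ω s) (Ω t) ≤ L * |s - t| ^ a) →
      ∀ s ∈ J, ∀ t ∈ J, lam s * area (Ω s) = lam t * area (Ω t)) ∧
    (∀ (J : Set ℝ) (Ω : ℝ → Set ℂ) (lam : ℝ → ℝ) (R L a : ℝ), J.OrdConnected → 0 ≤ R → 0 ≤ L →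
      1 / 2 < a → ContinuousOn lam J →
      (∀ t ∈ J, IsOpen (Ω t) ∧ StarConvex ℝ 0 (Ω t) ∧ Ω t ⊆ closedBall 0 R ∧ 0 < lam t ∧
        Solvable (Ω t) (lam t)) →
      (∀ s ∈ J, ∀ t ∈ J, gap (Ω s) (Ω t) ≤ L * |s - t| ^ a) →
      ∀ s ∈ J, ∀ t ∈ J, lam s * area (Ω s) = lam t * area (Ω t)) := by
  refine ⟨?_, ?_, ?_, ?_, ?_⟩
  · intro R Λ hR0
    obtain ⟨C, hC, h⟩ := Pool.Agent.X103.Ar.area_unif (Lam := Λ) hR0
    exact ⟨C, hC, fun lam hl hle E E' hm hm' hR hR' hS hS' =>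
      h lam hl hle E E' hm hm' hR hR' (slv_iff.1 hS) (slv_iff.1 hS')⟩
  · intro R Λ hR0
    obtain ⟨c, hc, h⟩ := Pool.Agent.X103.Ar.gap_unif (Lam := Λ) hR0
    exact ⟨c, hc, fun lam hl hle E E' hm hm' hEE hR' hS hS' =>
      h lam hl hle E E' hm hm' hEE hR' (slv_iff.1 hS) (slv_iff.1 hS')⟩
  · intro J E lam R L a hJ hl hR0 hL0 ha hE hL
    exact Pool.Agent.X103.Ar.path_eq hJ (fun t ht => (hE t ht).1) hR0
      (fun t ht => (hE t ht).2.1) hl (fun t ht => slv_iff.1 (hE t ht).2.2) hL0 ha hL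
  · intro J Ω lam R L P a hJ hR0 hL0 hP0 ha hc hE hP hL
    refine Pool.Agent.X103.Ar.path_var hJ (fun t ht => (hE t ht).1) hR0
      (fun t ht => (hE t ht).2.1) (fun t ht => (hE t ht).2.2.1) hc
      (fun t ht => slv_iff.1 (hE t ht).2.2.2) hL0 hP0 ha ?_ hL
    intro t ht ρ hρ
    rw [dil_eq]
    exact hP t ht ρ hρ
  · intro J Ω lam R L a hJ hR0 hL0 ha hc hE hL
    refine Pool.Agent.X103.Ar.path_var hJ (fun t ht => (hE t ht).1) hR0
      (fun t ht => (hE t ht).2.2.1) (fun t ht => (hE t ht).2.2.2.1) hc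
      (fun t ht => slv_iff.1 (hE t ht).2.2.2.2) hL0
      (P := 3 * (volume (closedBall (0 : ℂ) R)).toReal) (by positivity) ha ?_ hL
    intro t ht ρ hρ
    exact Pool.Agent.X103.Ar.star_dd (hE t ht).1 (hE t ht).2.2.1 (hE t ht).2.1 hρ

end Pool.Agent.Results.MP_83fd13_an.AreaRigidity
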