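import Pool.Agent.X103.CmE
import Pool.Agent.X103.CmF

/-!
# Schiffer's conjecture: closedness, compactness and minimal counterexamples

The domains that carry a nontrivial solution of the overdetermined problem (S) form a closed set
under convergence in measure; the convex ones that are not discs form a compact set, up to
similarities, if `lam |Ω|` is bounded; if there is one, there is one with the least `lam |Ω|`.
-/

set_option autoImplicit false

open MeasureTheory Filter Topology Metric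

namespace Pool.Agent.Results.MP_83fd13_an.MinimalConvexCounterexample

/-- The overdetermined problem (S) in the plane `ℂ`: `-Δu = lam u` in `Ω`, `∂u/∂n = 0` on `∂Ω`,
`u = c` on `∂Ω` has a nontrivial weak solution `u` for some real constant `c`; `G` is the weak
gradient of `u`, and both boundary conditions are expressed by testing with functions that need not
vanish on `∂Ω`. -/
def Solvable (Ω : Set ℂ) (lam : ℝ) : Prop :=
  ∃ (c : ℝ) (u : ℂ → ℝ) (G : ℂ → ℂ),
    MemLp u 2 (volume.restrict Ω) ∧ MemLp G 2 (volume.restrict Ω) ∧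
    (∀ φ : ℂ → ℝ, ContDiff ℝ 1 φ → HasCompactSupport φ → ∀ v : ℂ,
      ∫ x in Ω, (u x - c) * (fderiv ℝ φ x v) = - ∫ x in Ω, @inner ℝ ℂ _ (G x) v * φ x) ∧
    (∀ φ : ℂ → ℝ, ContDiff ℝ 1 φ → HasCompactSupport φ →
      ∫ x in Ω, fderiv ℝ φ x (G x) = lam * ∫ x in Ω, u x * φ x) ∧
    ¬ (u =ᵐ[volume.restrict Ω] 0)

/-- Admissible sets: nonempty bounded open sets of the plane with null boundary. -/
def Adm (Ω : Set ℂ) : Prop :=
  IsOpen Ω ∧ Bornology.IsBounded Ω ∧ Ω.Nonempty ∧ volume (frontier Ω) = 0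

/-- A convex counterexample to Schiffer's conjecture: a nonempty bounded open convex set of the
plane that is not a disc and carries a nontrivial solution of (S) for `lam > 0`. -/
def ConvexCounterexample (Ω : Set ℂ) (lam : ℝ) : Prop :=
  IsOpen Ω ∧ Bornology.IsBounded Ω ∧ Ω.Nonempty ∧ Convex ℝ Ω ∧ 0 < lam ∧ Solvable Ω lam ∧
    ¬ ∃ (p : ℂ) (r : ℝ), 0 < r ∧ Ω = ball p r

/-- The set `√lam (Ω - p)`, for which the eigenvalue `lam` becomes `1`. -/
def rescaled (Ω : Set ℂ) (lam : ℝ) (p : ℂ) : Set ℂ := {x | (Real.sqrt lam)⁻¹ • x + p ∈ Ω}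

/-- The sets `E n` converge to the open set `L` from inside and from outside: every compact subset
of `L` is contained in `E n` for all large `n`, and every open neighbourhood of the closure of `L`
contains `E n` for all large `n`. -/
def ConvergesTo (E : ℕ → Set ℂ) (L : Set ℂ) : Prop :=
  (∀ C : Set ℂ, IsCompact C → C ⊆ L → ∀ᶠ n in atTop, C ⊆ E n) ∧
  (∀ U : Set ℂ, IsOpen U → closure L ⊆ U → ∀ᶠ n in atTop, E n ⊆ U)

theorem slv_iff {Ω : Set ℂ} {lam : ℝ} : Solvable Ω lam ↔ Pool.Agent.X103.Nest.Slv Ω lam := by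
  constructor
  · rintro ⟨c, u, G, hu, hG, h1, h2, hu0⟩
    exact ⟨c, u, G, ⟨hu, hG, h1, h2⟩, hu0⟩
  · rintro ⟨c, u, G, ⟨hu, hG, h1, h2⟩, hu0⟩
    exact ⟨c, u, G, hu, hG, h1, h2, hu0⟩

theorem ce_iff {Ω : Set ℂ} {lam : ℝ} :
    ConvexCounterexample Ω lam ↔ Pool.Agent.X103.Cm.CE Ω lam := by
  unfold ConvexCounterexample Pool.Agent.X103.Cm.CE
  rw [slv_iff]

/-- (1) If the bounded measurable sets `E n`, all contained in one disc, carry nontrivial solutions
of (S) for `lam n > 0`, `lam n → l0` and `E n` converges in measure to the admissible set `E0`, then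
`E0` carries a nontrivial solution of (S) for `l0`.

(2) If the admissible set `E0` carries no nontrivial solution of (S) for any `lam` in `(0, T]`, then
for every `R` there is `ε > 0` such that the same holds for every measurable subset `E` of the disc
of radius `R` about `0` with `|E Δ E0| < ε`.

(3) Compactness: if `(Ω n, lam n)` are convex counterexamples with `lam n |Ω n|` bounded, then for
some translations and a subsequence the sets `√(lam n) (Ω n - p n)` converge to a convex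
counterexample `L` with eigenvalue `1`, and `lam n |Ω n| → |L|` along the subsequence.

(4) The set of the numbers `lam |Ω|`, for all convex counterexamples `(Ω, lam)`, is closed.

(5) If there is a convex counterexample, then there is one with the smallest value of `lam |Ω|`. -/
theorem result :
    (∀ (E : ℕ → Set ℂ) (E0 : Set ℂ) (lam : ℕ → ℝ) (l0 R : ℝ), (∀ n, MeasurableSet (E n)) →
      (∀ n, E n ⊆ closedBall 0 R) → (∀ n, 0 < lam n) → (∀ n, Solvable (E n) (lam n)) →
      Tendsto lam atTop (𝓝 l0) → Adm E0 →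
      Tendsto (fun n => volume (symmDiff (E n) E0)) atTop (𝓝 0) → Solvable E0 l0) ∧
    (∀ (E0 : Set ℂ) (T R : ℝ), Adm E0 → (∀ lam : ℝ, 0 < lam → lam ≤ T → ¬ Solvable E0 lam) →
      ∃ ε : ℝ, 0 < ε ∧ ∀ E : Set ℂ, MeasurableSet E → E ⊆ closedBall 0 R →
        volume (symmDiff E E0) < ENNReal.ofReal ε →
        ∀ lam : ℝ, 0 < lam → lam ≤ T → ¬ Solvable E lam) ∧
    (∀ (Ω : ℕ → Set ℂ) (lam : ℕ → ℝ) (A : ℝ), (∀ n, ConvexCounterexample (Ω n) (lam n)) →
      (∀ n, lam n * (volume (Ω n)).toReal ≤ A) →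
      ∃ (p : ℕ → ℂ) (L : Set ℂ) (φ : ℕ → ℕ), ConvexCounterexample L 1 ∧ StrictMono φ ∧
        ConvergesTo (fun n => rescaled (Ω (φ n)) (lam (φ n)) (p (φ n))) L ∧
        Tendsto (fun n => lam (φ n) * (volume (Ω (φ n))).toReal) atTop (𝓝 (volume L).toReal)) ∧
    IsClosed {a : ℝ | ∃ (Ω : Set ℂ) (lam : ℝ), ConvexCounterexample Ω lam ∧
      a = lam * (volume Ω).toReal} ∧
    ((∃ (Ω : Set ℂ) (lam : ℝ), ConvexCounterexample Ω lam) →
      ∃ (Ω : Set ℂ) (lam : ℝ), ConvexCounterexample Ω lam ∧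
        ∀ (Ω' : Set ℂ) (lam' : ℝ), ConvexCounterexample Ω' lam' →
          lam * (volume Ω).toReal ≤ lam' * (volume Ω').toReal) := by
  refine ⟨?_, ?_, ?_, ?_, ?_⟩
  · intro E E0 lam l0 R hm hR hl hS hlim ha hsd
    exact slv_iff.2 (Pool.Agent.X103.Cm.closed_meas (R := |R|) (abs_nonneg R) hm
      (fun n => (hR n).trans (closedBall_subset_closedBall (le_abs_self R))) hl
      (fun n => slv_iff.1 (hS n)) hlim ha hsd)
  · intro E0 T R ha hT
    obtain ⟨ε, h1, h2⟩ := Pool.Agent.X103.Cm.open_non ha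
      (fun lam h1 h2 h3 => hT lam h1 h2 (slv_iff.2 h3)) R
    exact ⟨ε, h1, fun E a1 a2 a3 lam a4 a5 a6 => h2 E a1 a2 a3 lam a4 a5 (slv_iff.1 a6)⟩
  · intro Ω lam A h hA
    obtain ⟨p, L, φ, h1, h2, h3, h4, h5⟩ :=
      Pool.Agent.X103.Cm.compact_ce (fun n => ce_iff.1 (h n)) hA
    exact ⟨p, L, φ, ce_iff.2 h1, h2, ⟨h3, h4⟩, h5⟩
  · have e : {a : ℝ | ∃ (Ω : Set ℂ) (lam : ℝ), ConvexCounterexample Ω lam ∧
        a = lam * (volume Ω).toReal} = {a : ℝ | ∃ (Ω : Set ℂ) (lam : ℝ),
        Pool.Agent.X103.Cm.CE Ω lam ∧ a = lam * (volume Ω).toReal} := by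
      ext a
      constructor
      · rintro ⟨Ω, lam, h1, h2⟩
        exact ⟨Ω, lam, ce_iff.1 h1, h2⟩
      · rintro ⟨Ω, lam, h1, h2⟩
        exact ⟨Ω, lam, ce_iff.2 h1, h2⟩
    rw [e]
    exact Pool.Agent.X103.Cm.values_closed
  · rintro ⟨Ω, lam, h⟩
    obtain ⟨Ω0, lam0, h0, hmin⟩ := Pool.Agent.X103.Cm.minimal ⟨Ω, lam, ce_iff.1 h⟩
    exact ⟨Ω0, lam0, ce_iff.2 h0, fun Ω' lam' h' => hmin Ω' lam' (ce_iff.1 h')⟩

end Pool.Agent.Results.MP_83fd13_an.MinimalConvexCounterexample
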