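import Pool.Agent.X103.NestG

/-!
# Schiffer's conjecture: nested families of domains

How many members of a nested or laminar family of planar domains can carry a nontrivial solution of
the overdetermined problem (S)?
-/

set_option autoImplicit false

open MeasureTheory

namespace Pool.Agent.Results.MP_83fd13_an.NestedDomains

/-- The overdetermined problem (S) in the plane `ℂ`: `-Δu = lam u` in `Ω`, `∂u/∂n = 0` on `∂Ω`,
`u = c` on `∂Ω` has a nontrivial weak solution `u` for some real constant `c`; `G` is the weak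
gradient of `u`, and both boundary conditions are expressed by testing with functions that need not
vanish on `∂Ω`. -/
def Solvable (Ω : Set ℂ) (lam : ℝ) : Prop :=
  ∃ (c : ℝ) (u : ℂ → ℝ) (G : ℂ → ℂ),
    MemLp u 2 (volume.restrict Ω) ∧ MemLp G 2 (volume.restrict Ω) ∧
    (∀ φ : ℂ → ℝ, ContDiff ℝ 1 φ → HasCompactSupport φ → ∀ v : ℂ,
      ∫ x in Ω, (u x - c) * (fderiv ℝ φ x v) = - ∫ x in Ω, @inner ℝ ℂ _ (G x) v * φ x) ∧
    (∀ φ : ℂ → ℝ, ContDiff ℝ 1 φ → HasCompactSupport φ →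
      ∫ x in Ω, fderiv ℝ φ x (G x) = lam * ∫ x in Ω, u x * φ x) ∧
    ¬ (u =ᵐ[volume.restrict Ω] 0)

/-- Admissible sets: nonempty bounded open sets of the plane with null boundary. -/
def Adm (Ω : Set ℂ) : Prop :=
  IsOpen Ω ∧ Bornology.IsBounded Ω ∧ Ω.Nonempty ∧ volume (frontier Ω) = 0

/-- Laminar families: two members are disjoint, or one of them contains the closure of the other. -/
def Laminar {I : Type} (Ω : I → Set ℂ) : Prop :=
  ∀ i j, i ≠ j → closure (Ω i) ⊆ Ω j ∨ closure (Ω j) ⊆ Ω i ∨ Disjoint (Ω i) (Ω j)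

theorem slv_of {Ω : Set ℂ} {lam : ℝ} (h : Solvable Ω lam) : Pool.Agent.X103.Nest.Slv Ω lam := by
  obtain ⟨c, u, G, hu, hG, h1, h2, hu0⟩ := h
  exact ⟨c, u, G, ⟨hu, hG, h1, h2⟩, hu0⟩

theorem of_slv {Ω : Set ℂ} {lam : ℝ} (h : Pool.Agent.X103.Nest.Slv Ω lam) : Solvable Ω lam := by
  obtain ⟨c, u, G, ⟨hu, hG, h1, h2⟩, hu0⟩ := h
  exact ⟨c, u, G, hu, hG, h1, h2, hu0⟩

/-- (1) For each `lam > 0` at most `lam |D| / (6π)` members of a laminar family of admissible
subsets of `D` carry a nontrivial solution of (S) with this `lam`.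

(2) If the members of a finite laminar family in `D` carry solutions whose eigenvalues do not
decrease from inside to outside and are at most `Λ`, then the family has at most `Λ |D| / (4π)`
members.

(3) In a strictly nested family `(Ω t)` in `D`, the set of pairs `(t, lam)`, `lam ≤ Λ`, for which
(S) is solvable is the union of at most `Λ |D| / (4π)` strictly decreasing graphs: there is a rank
with values in `{1, ..., N}`, `4π N ≤ Λ |D|`, and among the pairs of the same rank a larger domain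
has a strictly smaller eigenvalue.

(4) Along a strictly nested family a continuous branch of eigenvalues of (S) is strictly
decreasing. -/
theorem result :
    (∀ (I : Type) (Ω : I → Set ℂ), (∀ i, Adm (Ω i)) → Laminar Ω →
      ∀ D : Set ℂ, MeasurableSet D → volume D ≠ ⊤ → (∀ i, Ω i ⊆ D) → ∀ lam : ℝ, 0 < lam →
        {i | Solvable (Ω i) lam}.Finite ∧
        6 * Real.pi * ({i | Solvable (Ω i) lam}.ncard : ℝ) ≤ lam * (volume D).toReal) ∧
    (∀ (I : Type) [Fintype I] (Ω : I → Set ℂ), (∀ i, Adm (Ω i)) → Laminar Ω →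
      ∀ D : Set ℂ, MeasurableSet D → volume D ≠ ⊤ → (∀ i, Ω i ⊆ D) →
      ∀ (lam : I → ℝ) (Λ : ℝ), 0 ≤ Λ → (∀ i, 0 < lam i ∧ lam i ≤ Λ ∧ Solvable (Ω i) (lam i)) →
        (∀ i j, closure (Ω i) ⊆ Ω j → lam i ≤ lam j) →
        4 * Real.pi * (Fintype.card I : ℝ) ≤ Λ * (volume D).toReal) ∧
    (∀ (T : Type) [LinearOrder T] (Ω : T → Set ℂ), (∀ t, Adm (Ω t)) →
      (∀ s t, s < t → closure (Ω s) ⊆ Ω t) →
      ∀ D : Set ℂ, MeasurableSet D → volume D ≠ ⊤ → (∀ t, Ω t ⊆ D) → ∀ Λ : ℝ,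
        ∃ r : T → ℝ → ℕ, ∀ (t : T) (lam : ℝ), 0 < lam → lam ≤ Λ → Solvable (Ω t) lam →
          1 ≤ r t lam ∧ 4 * Real.pi * (r t lam : ℝ) ≤ Λ * (volume D).toReal ∧
          ∀ (s : T) (mu : ℝ), s < t → 0 < mu → mu ≤ Λ → Solvable (Ω s) mu →
            r s mu = r t lam → lam < mu) ∧
    (∀ J : Set ℝ, J.OrdConnected → ∀ Ω : ℝ → Set ℂ, (∀ t ∈ J, Adm (Ω t)) →
      (∀ s ∈ J, ∀ t ∈ J, s < t → closure (Ω s) ⊆ Ω t) →
      ∀ lam : ℝ → ℝ, ContinuousOn lam J → (∀ t ∈ J, 0 < lam t ∧ Solvable (Ω t) (lam t)) →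
        StrictAntiOn lam J) := by
  refine ⟨?_, ?_, ?_, ?_⟩
  · intro I Ω ha hL D hD hfin hs lam hl
    have h := Pool.Agent.X103.Nest.count ha hL hD hfin hs hl
    have e : {i | Solvable (Ω i) lam} = {i | Pool.Agent.X103.Nest.Slv (Ω i) lam} := by
      ext i
      exact ⟨slv_of, of_slv⟩
    rw [e]
    exact h
  · intro I _ Ω ha hL D hD hfin hs lam Λ hΛ hS hmon
    exact Pool.Agent.X103.Nest.fin_mono ha hL (fun i => (hS i).1) (fun i => slv_of (hS i).2.2)
      hmon hΛ (fun i => (hS i).2.1) hD hfin hs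
  · intro T _ Ω ha hn D hD hfin hs Λ
    obtain ⟨r, hr⟩ := Pool.Agent.X103.Nest.rank ha hn hD hfin hs Λ
    refine ⟨r, fun t lam h1 h2 h3 => ?_⟩
    obtain ⟨a1, a2, a3⟩ := hr t lam h1 h2 (slv_of h3)
    exact ⟨a1, a2, fun s mu b1 b2 b3 b4 b5 => a3 s mu b1 b2 b3 (slv_of b4) b5⟩
  · intro J hJ Ω ha hn lam hc hS
    exact Pool.Agent.X103.Nest.branch hJ ha hn hc (fun t ht => (hS t ht).1)
      (fun t ht => slv_of (hS t ht).2)

end Pool.Agent.Results.MP_83fd13_an.NestedDomains
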