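import Pool.Agent.X103.ArH

/-!
# Schiffer's conjecture: the eigenvalues which occur in a family of domains

Let `Ω x` be a family of plane domains which depends on a parameter `x` in a set `J` of dimension
`dim J`, Hölder continuously in measure with exponent `a`. The set of all numbers `lam |Ω x|` for
which the overdetermined problem (S) has a nontrivial solution on `Ω x` with eigenvalue `lam` has
dimension at most `dim J / (2 a)`. For one-parameter families and `a > 1/2` it is a null set. In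
particular, in a Lipschitz one-parameter family of domains of the same area the eigenvalues for which
(S) is solvable on some member form a set of dimension at most `1/2`.
-/

set_option autoImplicit false

open MeasureTheory Set Metric

namespace Pool.Agent.Results.MP_83fd13_an.ValuesInFamilies

/-- The overdetermined problem (S) in the plane `ℂ`: `-Δu = lam u` in `Ω`, `∂u/∂n = 0` on `∂Ω`,
`u = c` on `∂Ω` has a nontrivial weak solution `u` for some real constant `c`; `G` is the weak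
gradient of `u`, and both boundary conditions are expressed by testing with functions that need not
vanish on `∂Ω`. -/
def Solvable (Ω : Set ℂ) (lam : ℝ) : Prop :=
  ∃ (c : ℝ) (u : ℂ → ℝ) (G : ℂ → ℂ),
    MemLp u 2 (volume.restrict Ω) ∧ MemLp G 2 (volume.restrict Ω) ∧
    (∀ φ : ℂ → ℝ, ContDiff ℝ 1 φ → HasCompactSupport φ → ∀ v : ℂ,
      ∫ x in Ω, (u x - c) * (fderiv ℝ φ x v) = - ∫ x in Ω, @inner ℝ ℂ _ (G x) v * φ x) ∧
    (∀ φ : ℂ → ℝ, ContDiff ℝ 1 φ → HasCompactSupport φ →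
      ∫ x in Ω, fderiv ℝ φ x (G x) = lam * ∫ x in Ω, u x * φ x) ∧
    ¬ (u =ᵐ[volume.restrict Ω] 0)

/-- The area of a set. -/
noncomputable def area (E : Set ℂ) : ℝ := (volume E).toReal

/-- The area of the symmetric difference. -/
noncomputable def gap (E E' : Set ℂ) : ℝ := area (symmDiff E E')

/-- The set `ρ Ω`. -/
def dilated (ρ : ℝ) (Ω : Set ℂ) : Set ℂ := {x | ρ⁻¹ • x ∈ Ω}

/-- A mild regularity condition: the area of `Ω Δ ρ Ω` is at most `P |ρ - 1|` for `1/2 ≤ ρ ≤ 2`, or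
`Ω` is star-shaped about `0`. -/
def Mild (P : ℝ) (Ω : Set ℂ) : Prop :=
  (∀ ρ ∈ Icc (1 / 2 : ℝ) 2, gap Ω (dilated ρ Ω) ≤ P * |ρ - 1|) ∨ StarConvex ℝ 0 Ω

/-- The numbers `lam |Ω x|`, for all `x ∈ J` and all `lam > 0` such that (S) has a nontrivial
solution on `Ω x` with eigenvalue `lam`. -/
def values {X : Type} (J : Set X) (Ω : X → Set ℂ) : Set ℝ :=
  {v | ∃ x ∈ J, ∃ lam : ℝ, 0 < lam ∧ Solvable (Ω x) lam ∧ v = lam * area (Ω x)}

/-- The numbers `lam > 0` such that (S) has a nontrivial solution with eigenvalue `lam` on some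
`Ω x`, `x ∈ J`. -/
def eigenvalues {X : Type} (J : Set X) (Ω : X → Set ℂ) : Set ℝ :=
  {lam | 0 < lam ∧ ∃ x ∈ J, Solvable (Ω x) lam}

theorem slv_iff {Ω : Set ℂ} {lam : ℝ} : Solvable Ω lam ↔ Pool.Agent.X103.Nest.Slv Ω lam := by
  constructor
  · rintro ⟨c, u, G, hu, hG, h1, h2, hu0⟩
    exact ⟨c, u, G, ⟨hu, hG, h1, h2⟩, hu0⟩
  · rintro ⟨c, u, G, ⟨hu, hG, h1, h2⟩, hu0⟩
    exact ⟨c, u, G, hu, hG, h1, h2, hu0⟩

theorem dil_eq (ρ : ℝ) (Ω : Set ℂ) : Pool.Agent.X103.Cm.sim ρ⁻¹ 0 Ω = dilated ρ Ω := by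
  unfold Pool.Agent.X103.Cm.sim dilated
  ext x
  simp

theorem part1 {X : Type} [MetricSpace X] [SecondCountableTopology X] {J : Set X}
    {Ω : X → Set ℂ} {R L P a : ℝ} (hL0 : 0 ≤ L) (ha : 0 < a)
    (h : ∀ x ∈ J, IsOpen (Ω x) ∧ Ω x ⊆ closedBall 0 R ∧ Mild P (Ω x))
    (hL : ∀ x ∈ J, ∀ y ∈ J, gap (Ω x) (Ω y) ≤ L * dist x y ^ a) :
    dimH (values J Ω) ≤ dimH J / ENNReal.ofReal (2 * a) := by
  have h1 : dimH {v : ℝ | ∃ x ∈ J, ∃ lam : ℝ, 0 < lam ∧ Pool.Agent.X103.Nest.Slv (Ω x) lam ∧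
      v = lam * (volume (Ω x)).toReal} ≤ dimH J / ENNReal.ofReal (2 * a) := by
    refine Pool.Agent.X103.Ar.dim_var hL0
      (P := max P (3 * (volume (closedBall (0 : ℂ) R)).toReal)) (le_max_of_le_right (by positivity))
      ha (fun x hx => (h x hx).1) (fun x hx => (h x hx).2.1) ?_ hL
    intro x hx ρ hρ
    rcases (h x hx).2.2 with h2 | h2
    · rw [dil_eq]
      exact (h2 ρ hρ).trans (mul_le_mul_of_nonneg_right (le_max_left _ _) (abs_nonneg _))
    · exact (Pool.Agent.X103.Ar.star_dd (h x hx).1 (h x hx).2.1 h2 hρ).trans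
        (mul_le_mul_of_nonneg_right (le_max_right _ _) (abs_nonneg _))
  refine (dimH_mono ?_).trans h1
  rintro v ⟨x, hx, lam, hl, hs, hv⟩
  exact ⟨x, hx, lam, hl, slv_iff.1 hs, hv⟩

theorem freq_dim {X : Type} {J : Set X} {Ω : X → Set ℂ} {A : ℝ} (hA : 0 < A)
    (h : ∀ x ∈ J, area (Ω x) = A) : dimH (eigenvalues J Ω) ≤ dimH (values J Ω) := by
  have h1 : eigenvalues J Ω ⊆ (fun v => A⁻¹ * v) '' values J Ω := by
    rintro lam ⟨hl, x, hx, hs⟩
    refine ⟨lam * area (Ω x), ⟨x, hx, lam, hl, hs, rfl⟩, ?_⟩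
    simp only
    rw [h x hx]
    field_simp
  refine (dimH_mono h1).trans ?_
  have h2 : LipschitzWith (A⁻¹).toNNReal fun v : ℝ => A⁻¹ * v := by
    refine LipschitzWith.of_dist_le_mul fun x y => ?_
    rw [Real.dist_eq, Real.dist_eq, ← mul_sub, abs_mul, Real.coe_toNNReal _ (inv_nonneg.2 hA.le),
      abs_of_pos (inv_pos.2 hA)]
  exact h2.dimH_image_le _

/-- Let `J` be a subset of a separable metric space.

(1) Let `Ω x`, `x ∈ J`, be open subsets of a disc with the mild regularity condition and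
`|Ω x Δ Ω y| ≤ L dist (x, y) ^ a`. Then the set of the numbers `lam |Ω x|` for which `Ω x` carries a
nontrivial solution of (S) with eigenvalue `lam` has Hausdorff dimension at most `dim J / (2 a)`. If
all `Ω x` have the same area, then this is also true for the set of all eigenvalues `lam` for which
(S) has a nontrivial solution on some `Ω x`.

(2) For measurable sets `E x` and a fixed `lam`, without the regularity condition: the areas of those
`E x` which carry a nontrivial solution of (S) with this `lam` form a set of dimension at most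
`dim J / (2 a)`.

(3) If `J` is a set of real numbers and `a > 1/2`, then the sets in (1) are null sets. -/
theorem result :
    (∀ (X : Type) [MetricSpace X] [SecondCountableTopology X] (J : Set X) (Ω : X → Set ℂ)
      (R L P a : ℝ), 0 ≤ L → 0 < a →
      (∀ x ∈ J, IsOpen (Ω x) ∧ Ω x ⊆ closedBall 0 R ∧ Mild P (Ω x)) →
      (∀ x ∈ J, ∀ y ∈ J, gap (Ω x) (Ω y) ≤ L * dist x y ^ a) →
      dimH (values J Ω) ≤ dimH J / ENNReal.ofReal (2 * a) ∧
      ∀ A : ℝ, 0 < A → (∀ x ∈ J, area (Ω x) = A) →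
        dimH (eigenvalues J Ω) ≤ dimH J / ENNReal.ofReal (2 * a)) ∧
    (∀ (X : Type) [MetricSpace X] [SecondCountableTopology X] (J : Set X) (E : X → Set ℂ)
      (R L a lam : ℝ), 0 ≤ L → 0 < a → 0 < lam →
      (∀ x ∈ J, MeasurableSet (E x) ∧ E x ⊆ closedBall 0 R) →
      (∀ x ∈ J, ∀ y ∈ J, gap (E x) (E y) ≤ L * dist x y ^ a) →
      dimH {v : ℝ | ∃ x ∈ J, Solvable (E x) lam ∧ v = area (E x)} ≤
        dimH J / ENNReal.ofReal (2 * a)) ∧
    (∀ (J : Set ℝ) (Ω : ℝ → Set ℂ) (R L P a : ℝ), 0 ≤ L → 1 / 2 < a →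
      (∀ t ∈ J, IsOpen (Ω t) ∧ Ω t ⊆ closedBall 0 R ∧ Mild P (Ω t)) →
      (∀ s ∈ J, ∀ t ∈ J, gap (Ω s) (Ω t) ≤ L * |s - t| ^ a) →
      volume (values J Ω) = 0 ∧
      ∀ A : ℝ, 0 < A → (∀ t ∈ J, area (Ω t) = A) → volume (eigenvalues J Ω) = 0) := by
  refine ⟨?_, ?_, ?_⟩
  · intro X _ _ J Ω R L P a hL0 ha h hL
    have h1 := part1 hL0 ha h hL
    exact ⟨h1, fun A hA hAx => (freq_dim hA hAx).trans h1⟩
  · intro X _ _ J E R L a lam hL0 ha hl h hL
    have h1 := Pool.Agent.X103.Ar.dim_fix hL0 ha hl (fun x hx => (h x hx).1)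
      (fun x hx => (h x hx).2) hL
    refine (dimH_mono ?_).trans h1
    rintro v ⟨x, hx, hs, hv⟩
    exact ⟨x, hx, slv_iff.1 hs, hv⟩
  · intro J Ω R L P a hL0 ha h hL
    have h1 := part1 hL0 (by linarith : 0 < a) h hL
    exact ⟨Pool.Agent.X103.Ar.null_of_dim ha h1, fun A hA hAx =>
      Pool.Agent.X103.Ar.null_of_dim ha ((freq_dim hA hAx).trans h1)⟩

end Pool.Agent.Results.MP_83fd13_an.ValuesInFamilies
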